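import Pool.Agent.Work.MP_5c86b6_an.Cone

set_option autoImplicit false

open Polynomial

namespace Pool.Agent.Work.MP_5c86b6_an.Parked.SmallH2

/-- There is a (symmetric) polynomial hypergroup on the nonnegative integers whose second Haar
weight `h(2) = a 0 * a 1 / (c 1 * c 2)` equals `16/9 < 2`. -/
theorem result : ∃ (a b c : ℕ → ℝ) (P : ℕ → ℝ[X]),
    (∀ n, 0 < a n) ∧ (∀ n, b n = 0) ∧ (∀ n, 1 ≤ n → 0 < c n) ∧
    a 0 + b 0 = 1 ∧ (∀ n, 1 ≤ n → a n + b n + c n = 1) ∧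
    P 0 = 1 ∧ P 1 = C (1 / a 0) * (X - C (b 0)) ∧
    (∀ n, 1 ≤ n → X * P n = C (a n) * P (n + 1) + C (b n) * P n + C (c n) * P (n - 1)) ∧
    (∀ m n, ∃ g : ℕ → ℝ, (∀ k, 0 ≤ g k) ∧
      P m * P n = ∑ k ∈ Finset.Icc (Nat.dist m n) (m + n), C (g k) * P k) ∧
    a 0 * a 1 / (c 1 * c 2) = 16 / 9 ∧ a 0 * a 1 < 2 * (c 1 * c 2) := by
  open Pool.Agent.Work.MP_5c86b6_an in
  refine ⟨a, fun _ => 0, c, P, a_pos, fun _ => rfl, c_pos, ?_, fun n _ => ?_, rfl, ?_,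
    fun n hn => ?_, linearization, ?_, ?_⟩
  · simp [Pool.Agent.Work.MP_5c86b6_an.a, Pool.Agent.Work.MP_5c86b6_an.c]
  · simp [Pool.Agent.Work.MP_5c86b6_an.a]
  · simp [Pool.Agent.Work.MP_5c86b6_an.a, Pool.Agent.Work.MP_5c86b6_an.c,
      Pool.Agent.Work.MP_5c86b6_an.P]
  · simpa using Pool.Agent.Work.MP_5c86b6_an.recurrence n hn
  · norm_num [Pool.Agent.Work.MP_5c86b6_an.a, Pool.Agent.Work.MP_5c86b6_an.c]
  · norm_num [Pool.Agent.Work.MP_5c86b6_an.a, Pool.Agent.Work.MP_5c86b6_an.c]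

end Pool.Agent.Work.MP_5c86b6_an.Parked.SmallH2
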